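import Pool.Agent.H16.EL.Pub

/-!
Public definitions for map symmetries.
-/

open scoped Manifold ContDiff Topology
open Bundle Set

noncomputable section

namespace Pool.Agent.H57.MS

open Pool.Agent.H16.EL

variable {n : ℕ} {N : Type*} [TopologicalSpace N] [ChartedSpace (Rn n) N] [IsManifold (IRn n) ∞ N]

/-- the point `(x, s p)` of `T*N`, for `z = (x, p)` -/
def scale (s : ℝ) (z : TStar n N) : TStar n N :=
  (⟨z.pt, s • z.cov⟩ : TotalSpace (Rd n)
    (fun x : N => TangentSpace (IRn n) x →L[ℝ] Trivial N ℝ x))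

/-- the derivative of a real function on `T*N` at `z`, applied to `ξ` -/
def dreal (A : TStar n N → ℝ) (z : TStar n N) (ξ : TangentSpace (IRT n) z) : ℝ :=
  mfderiv (IRT n) 𝓘(ℝ, ℝ) A z ξ

/-- `Φ` is a smooth self map of `T*N` with `Φ*λ = λ + dA` (an exact symplectic map with action
function `A`) -/
structure ExactMap (Φ : TStar n N → TStar n N) (A : TStar n N → ℝ) : Prop where
  smooth : ContMDiff (IRT n) (IRT n) ∞ Φ
  smooth_action : ContMDiff (IRT n) 𝓘(ℝ, ℝ) ∞ A
  pres : ∀ z ξ, liouv (Φ z) (dself Φ z ξ) = liouv z ξ + dreal A z ξ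

/-- `A` vanishes on the zero section and has positive derivative in the radial direction at every
other point -/
structure RadInc (A : TStar n N → ℝ) : Prop where
  zero : ∀ z ∈ zeroSection n N, A z = 0
  radial : ∀ z ∉ zeroSection n N, ∃ d > 0, HasDerivAt (fun s : ℝ => A (scale s z)) d 1

end Pool.Agent.H57.MS
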