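import Pool.Agent.H57.MS.Main
import Pool.Agent.H57.MS.Pub

/-!
From the public definitions to the internal ones.
-/

open scoped Manifold ContDiff Topology
open Bundle Set

set_option linter.unusedSectionVars false

noncomputable section

namespace Pool.Agent.H57.MS

open Pool.Agent.H16.EL

variable {n : ℕ} {N : Type*} [TopologicalSpace N] [ChartedSpace (Rn n) N] [IsManifold (IRn n) ∞ N]
variable {L : Type*} [TopologicalSpace L] [ChartedSpace (Rn n) L] [IsManifold (IRn n) ∞ L]

theorem map_symmetry_pub [T2Space N] [ConnectedSpace N] [CompactSpace L] [ConnectedSpace L]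
    (j : L → TStar n N) (hj : ExactLag j) (Φ : TStar n N → TStar n N) (A : TStar n N → ℝ)
    (h : ExactMap Φ A) (hr : RadInc A) (hinv : ∀ z ∈ range j, A (Φ z) = A z)
    (hmap : Φ '' range j ⊆ range j) : range j = zeroSection n N := by
  let _ : ChartedSpace (E n) N := chI N
  let _ : ChartedSpace (E n) L := chI L
  have hN : IsManifold (𝓡 n) ∞ N := manI N
  have hL : IsManifold (𝓡 n) ∞ L := manI L
  let j' : L → CT n N := j
  have hsm : ContMDiff (𝓡 n) (ICT n) ∞ j' := hj.smooth
  have him : ∀ y, Function.Injective (mfderiv (𝓡 n) (ICT n) j' y) := by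
    intro y v w hvw
    let A : E n →L[ℝ] (E n × (E n →L[ℝ] ℝ)) := mfderiv (𝓡 n) (ICT n) j' y
    let v' : E n := v
    let w' : E n := w
    have h1 : A v' = A w' := hvw
    have h2 : A (v' - w') = 0 := by rw [map_sub, h1, sub_self]
    have h3 : (v' - w' : E n) = 0 := hj.immersion y (v' - w' : E n) h2
    exact sub_eq_zero.1 h3
  have hj' : ExactLagrangian (n := n) (N := N) (L := L) j' := ⟨hsm, hj.inj, him, hj.exact⟩
  let Φ' : CT n N → CT n N := Φ
  let A' : CT n N → ℝ := A
  have hzs : ∀ z : CT n N, z.2 = 0 ↔ (show TStar n N from z) ∈ zeroSection n N := by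
    intro z
    constructor
    · intro hz v
      show (TotalSpace.snd z) v = 0
      have hz' : TotalSpace.snd z = 0 := hz
      rw [hz']; rfl
    · intro hz
      exact ContinuousLinearMap.ext hz
  have hmain : range j' = zeroSec n N := by
    refine map_symmetry (Φ := Φ') (A := A') hj' h.smooth h.smooth_action ?_ ?_ ?_ ?_ ?_
    · intro z ξ
      exact h.pres z ξ
    · intro y
      exact hinv _ (mem_range_self y)
    · intro z hz
      exact hr.zero _ ((hzs z).1 hz)
    · intro z hz
      exact hr.radial _ (fun hmem => hz ((hzs z).2 hmem))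
    · intro y
      exact hmap (mem_image_of_mem _ (mem_range_self y))
  have h2 : zeroSec n N = zeroSection n N := by
    ext z
    exact hzs z
  rw [← h2]
  exact hmain

end Pool.Agent.H57.MS
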