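import Pool.Agent.H57.MS.MapSym
import Pool.Agent.H16.EL.Bridge

/-!
Main theorem on map symmetries.
-/

open scoped Manifold ContDiff Topology InnerProductSpace
open Bundle Set Filter

set_option linter.unusedSectionVars false

noncomputable section

namespace Pool.Agent.H57.MS

open Pool.Agent.H16.EL

variable {n : ℕ} {N : Type*} [TopologicalSpace N] [ChartedSpace (E n) N] [IsManifold (𝓡 n) ∞ N]
variable {L : Type*} [TopologicalSpace L] [ChartedSpace (E n) L] [IsManifold (𝓡 n) ∞ L]

/-- An exact Lagrangian contained in the zero section is the zero section. -/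
theorem eq_zeroSec_of_subset [CompactSpace L] [ConnectedSpace L] [T2Space N] [ConnectedSpace N]
    {j : L → CT n N} (hj : ExactLagrangian j) (h : ∀ y, (j y).2 = 0) :
    range j = zeroSec n N := by
  have hb : Continuous (fun y => (j y).proj) := (contMDiff_b hj.smooth).continuous
  have hreg : ∀ y, Reg j y := by
    intro y
    set x₁ : N := (j y).proj with hx₁
    set w₀ := extChartAt (𝓡 n) y y with hw₀
    have hw : w₀ ∈ Dom j y x₁ := mem_Dom (mem_chart_source _ _) (mem_chart_source _ _)
    have e0 : (extChartAt (𝓡 n) y).symm w₀ = y := extChartAt_to_inv (I := 𝓡 n) y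
    have hQ : Qc j y x₁ =ᶠ[𝓝 w₀] fun _ => (0 : E n) := by
      filter_upwards [(isOpen_Dom hj.smooth y x₁).mem_nhds hw] with w' hw'
      have h1 : Pc j y x₁ w' = 0 := by
        ext v
        obtain ⟨ζ, rfl⟩ := (chart_bij (n := n) hw'.2).2 v
        rw [Pc_apply hw', h]
        rfl
      unfold Qc
      rw [h1, map_zero]
    have hQd : fderiv ℝ (Qc j y x₁) w₀ = 0 := by
      rw [hQ.fderiv_eq]
      simp
    have h2 := (reg_iff hj.smooth hw).1 (fun v hv => immersion_coords hj.smooth hj.immersion hw v hv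
      (by rw [hQd]; rfl))
    rwa [e0] at h2
  have hopen : IsOpen (range (fun y => (j y).proj)) := by
    rw [isOpen_iff_mem_nhds]
    rintro _ ⟨y, rfl⟩
    have := reg_image_nhds hj (hreg y) (univ_mem)
    rwa [image_univ] at this
  have hclosed : IsClosed (range (fun y => (j y).proj)) := (isCompact_range hb).isClosed
  have huniv : range (fun y => (j y).proj) = univ :=
    IsClopen.eq_univ ⟨hclosed, hopen⟩ (range_nonempty _)
  ext z
  constructor
  · rintro ⟨y, rfl⟩
    exact h y
  · intro hz
    have h1 : z.proj ∈ range (fun y => (j y).proj) := huniv ▸ mem_univ _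
    obtain ⟨y, hy⟩ := h1
    refine ⟨y, ?_⟩
    have hz' : z.2 = 0 := hz
    have hzz : z = ⟨z.proj, 0⟩ := by rw [← hz']
    have hjj : j y = ⟨(j y).proj, 0⟩ := by rw [← h y]
    have hy' : (j y).proj = z.proj := hy
    rw [hjj, hzz, hy']

theorem map_symmetry [CompactSpace L] [ConnectedSpace L] [T2Space N] [ConnectedSpace N]
    {j : L → CT n N} (hj : ExactLagrangian j) {Φ : CT n N → CT n N}
    (hΦs : ContMDiff (ICT n) (ICT n) ∞ Φ) {A : CT n N → ℝ} (hA : ContMDiff (ICT n) 𝓘(ℝ, ℝ) ∞ A)
    (hΦ : ∀ (z : CT n N) (ξ : TangentSpace (ICT n) z),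
      liouville (Φ z) (mfderiv (ICT n) (ICT n) Φ z ξ) = liouville z ξ + dR A z ξ)
    (hinv : ∀ y, A (Φ (j y)) = A (j y)) (h0 : ∀ z : CT n N, z.2 = 0 → A z = 0)
    (hrad : ∀ z : CT n N, z.2 ≠ 0 → ∃ d > 0, HasDerivAt (fun s : ℝ => A (scl s z)) d 1)
    (hmap : ∀ y, Φ (j y) ∈ range j) : range j = zeroSec n N := by
  have := ct_t2 (n := n) (N := N)
  have hemb := hj.smooth.continuous.isClosedEmbedding hj.inj
  obtain ⟨f, hf, hfj⟩ := hj.exact
  have hfc : Continuous f := hf.continuous
  choose ρ hρ using hmap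
  have hc : Continuous ρ := by
    rw [hemb.isEmbedding.continuous_iff]
    have : j ∘ ρ = fun y => Φ (j y) := funext hρ
    rw [this]
    exact hΦs.continuous.comp hj.smooth.continuous
  have hch := primitive_change hj hf hfj hΦs hA hΦ hc hρ
  obtain ⟨ymax, -, hmax⟩ := isCompact_univ.exists_isMaxOn (univ_nonempty (α := L)) hfc.continuousOn
  obtain ⟨ymin, -, hmin⟩ := isCompact_univ.exists_isMinOn (univ_nonempty (α := L)) hfc.continuousOn
  set C : ℝ := f (ρ ymax) - (f ymax + A (j ymax)) with hC
  have h1 : ∀ y, f (ρ y) = f y + (A (j y) + C) := by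
    intro y
    have := hch y ymax
    rw [← hC] at this
    linarith
  have hAρ : ∀ (k : ℕ) (y : L), A (j (ρ^[k] y)) = A (j y) := by
    intro k
    induction k with
    | zero => intro y; rfl
    | succ k ih =>
      intro y
      rw [Function.iterate_succ_apply', hρ, hinv, ih]
  have h2 : ∀ (k : ℕ) (y : L), f (ρ^[k] y) = f y + k * (A (j y) + C) := by
    intro k
    induction k with
    | zero => intro y; simp
    | succ k ih =>
      intro y
      rw [Function.iterate_succ_apply', h1, hAρ, ih]
      push_cast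
      ring
  have h3 : ∀ y, A (j y) + C = 0 := by
    intro y
    by_contra hne
    have hpos : 0 < |A (j y) + C| := abs_pos.2 hne
    obtain ⟨k, hk⟩ := exists_nat_gt ((f ymax - f ymin) / |A (j y) + C|)
    rw [div_lt_iff₀ hpos] at hk
    have a1 : f (ρ^[k] y) ≤ f ymax := hmax (mem_univ _)
    have a2 : f ymin ≤ f (ρ^[k] y) := hmin (mem_univ _)
    have a3 : f y ≤ f ymax := hmax (mem_univ _)
    have a4 : f ymin ≤ f y := hmin (mem_univ _)
    rw [h2] at a1 a2
    rcases abs_cases (A (j y) + C) with ⟨hab, _⟩ | ⟨hab, _⟩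
    · rw [hab] at hk
      linarith
    · rw [hab] at hk
      linarith
  -- the maximum
  have hloc : IsLocalMax f ymax := by
    filter_upwards with y
    exact hmax (mem_univ y)
  have hconst : ∀ y, A (j y) = A (j ymax) := by
    intro y
    have a1 := h3 y
    have a2 := h3 ymax
    linarith
  have hz : (j ymax).2 = 0 := by
    by_contra hne
    obtain ⟨d, hd, hd2⟩ := hrad _ hne
    have := radial_zero hj hf hfj hloc hA hconst hd2
    linarith
  have hA0 : ∀ y, A (j y) = 0 := fun y => by rw [hconst y, h0 _ hz]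
  apply eq_zeroSec_of_subset hj
  intro y
  by_contra hne
  have := pos_of_radial hA h0 hrad hne
  rw [hA0 y] at this
  exact lt_irrefl _ this

end Pool.Agent.H57.MS
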