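import Pool.Agent.H16.EL.Trans

/-!
Closed exact Lagrangians invariant under a map `Φ` with `Φ*λ = λ + dA`, `A ∘ Φ = A`, `A` radially
increasing (time-one maps of geodesic flows). Uses helper16's library.
-/

open scoped Manifold ContDiff Topology InnerProductSpace
open Bundle Set Filter

set_option linter.unusedSectionVars false

noncomputable section

namespace Pool.Agent.H57.MS

open Pool.Agent.H16.EL

variable {n : ℕ} {N : Type*} [TopologicalSpace N] [ChartedSpace (E n) N] [IsManifold (𝓡 n) ∞ N]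
variable {L : Type*} [TopologicalSpace L] [ChartedSpace (E n) L] [IsManifold (𝓡 n) ∞ L]

/-- The point `(x, s p)`. -/
def scl (s : ℝ) (z : CT n N) : CT n N := ⟨z.proj, s • z.2⟩

/-- The inverse of the coordinates at `x₁`. -/
def invc (x₁ : N) (p : E n × (E n →L[ℝ] ℝ)) : CT n N :=
  (triv (n := n) x₁).toOpenPartialHomeomorph.symm ((extChartAt (𝓡 n) x₁).symm p.1, p.2)

theorem invc_coords {x₁ : N} {z : CT n N} (hz : z.proj ∈ (chartAt (E n) x₁).source) :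
    invc x₁ (extChartAt (𝓡 n) x₁ z.proj, (triv x₁ z).2) = z := by
  unfold invc
  have h0 : (extChartAt (𝓡 n) x₁).symm (extChartAt (𝓡 n) x₁ z.proj) = z.proj :=
    (extChartAt (𝓡 n) x₁).left_inv (by rw [extChartAt_source]; exact hz)
  simp only [h0]
  have h1 : (z.proj, (triv x₁ z).2) = triv x₁ z := by
    ext1
    · exact ((triv x₁).coe_fst (mem_triv_source hz)).symm
    · rfl
  rw [h1]
  exact (triv x₁).toOpenPartialHomeomorph.left_inv (mem_triv_source hz)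

theorem invc_contMDiffAt {x₁ : N} {z : CT n N} (hz : z.proj ∈ (chartAt (E n) x₁).source) :
    ContMDiffAt (𝓘(ℝ, E n).prod 𝓘(ℝ, E n →L[ℝ] ℝ)) (ICT n) ∞ (invc (n := n) x₁)
      (extChartAt (𝓡 n) x₁ z.proj, (triv x₁ z).2) := by
  have hBt : extChartAt (𝓡 n) x₁ z.proj ∈ (extChartAt (𝓡 n) x₁).target :=
    (extChartAt (𝓡 n) x₁).map_source (by rw [extChartAt_source]; exact hz)
  have hB0 : (extChartAt (𝓡 n) x₁).symm (extChartAt (𝓡 n) x₁ z.proj) = z.proj :=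
    (extChartAt (𝓡 n) x₁).left_inv (by rw [extChartAt_source]; exact hz)
  have h1 : ContMDiffAt (𝓘(ℝ, E n).prod 𝓘(ℝ, E n →L[ℝ] ℝ)) ((𝓡 n).prod 𝓘(ℝ, E n →L[ℝ] ℝ)) ∞
      (fun p : E n × (E n →L[ℝ] ℝ) => ((extChartAt (𝓡 n) x₁).symm p.1, p.2))
      (extChartAt (𝓡 n) x₁ z.proj, (triv x₁ z).2) := by
    refine ContMDiffAt.prodMk ?_ contMDiffAt_snd
    exact (((contMDiffOn_extChartAt_symm x₁).contMDiffAt
      ((isOpen_extChartAt_target x₁).mem_nhds hBt)).comp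
        (extChartAt (𝓡 n) x₁ z.proj, (triv x₁ z).2) contMDiffAt_fst)
  have h2 : ContMDiffAt ((𝓡 n).prod 𝓘(ℝ, E n →L[ℝ] ℝ)) (ICT n) ∞
      (triv (n := n) x₁).toOpenPartialHomeomorph.symm
      ((extChartAt (𝓡 n) x₁).symm (extChartAt (𝓡 n) x₁ z.proj), (triv x₁ z).2) := by
    refine ((triv (n := n) x₁).contMDiffOn_symm (IB := 𝓡 n) (n := ∞)).contMDiffAt
      ((triv (n := n) x₁).open_target.mem_nhds ?_)
    rw [(triv (n := n) x₁).mem_target, hB0]
    exact (triv (n := n) x₁).mem_source.1 (mem_triv_source hz)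
  exact h2.comp (extChartAt (𝓡 n) x₁ z.proj, (triv x₁ z).2) h1

/-- The trivialization is linear on fibres. -/
theorem triv_scl {x₁ : N} {z : CT n N} (hz : z.proj ∈ (chartAt (E n) x₁).source) (s : ℝ) :
    (triv x₁ (scl s z)).2 = s • (triv x₁ z).2 := by
  have hb : z.proj ∈ (triv (n := n) x₁).baseSet :=
    (triv (n := n) x₁).mem_source.1 (mem_triv_source hz)
  have h := ((triv (n := n) x₁).linear ℝ hb).map_smul s z.2
  exact h

/-- A function `A` on `T*N`, constant on an exact Lagrangian, has zero radial derivative at a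
maximum of the primitive. -/
theorem radial_zero {j : L → CT n N} (hj : ExactLagrangian j) {f : L → ℝ}
    (hf : ContMDiff (𝓡 n) 𝓘(ℝ, ℝ) ∞ f) (hfj : ∀ (y : L) (v : TangentSpace (𝓡 n) y),
      mfderiv (𝓡 n) 𝓘(ℝ, ℝ) f y v = liouville (j y) (mfderiv (𝓡 n) (ICT n) j y v))
    {y₀ : L} (hmax : IsLocalMax f y₀) {A : CT n N → ℝ} (hA : ContMDiff (ICT n) 𝓘(ℝ, ℝ) ∞ A)
    (hconst : ∀ y, A (j y) = A (j y₀)) {d : ℝ}
    (hd : HasDerivAt (fun s : ℝ => A (scl s (j y₀))) d 1) : d = 0 := by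
  set x₁ : N := (j y₀).proj with hx₁
  set w₀ := extChartAt (𝓡 n) y₀ y₀ with hw₀
  have hw : w₀ ∈ Dom j y₀ x₁ := mem_Dom (mem_chart_source _ _) (mem_chart_source _ _)
  have e0 : (extChartAt (𝓡 n) y₀).symm w₀ = y₀ := extChartAt_to_inv (I := 𝓡 n) y₀
  have hzs : (j y₀).proj ∈ (chartAt (E n) x₁).source := mem_chart_source _ _
  -- the form vanishes
  have hm : IsLocalMax (fun w => f ((extChartAt (𝓡 n) y₀).symm w)) w₀ := by
    have := (symm_tendsto (n := n) y₀).eventually hmax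
    filter_upwards [this] with w hw
    rw [e0]; exact hw
  have hQB : ∀ v, ⟪Qc j y₀ x₁ w₀, fderiv ℝ (Bc j y₀ x₁) w₀ v⟫_ℝ = 0 := by
    intro v
    rw [← fderiv_Fc hj.smooth hf hfj hw v, hm.fderiv_eq_zero]
    rfl
  -- the radial vector is tangent
  obtain ⟨m, hm1, hm2⟩ := lagr_max (fderiv ℝ (Bc j y₀ x₁) w₀) (fderiv ℝ (Qc j y₀ x₁) w₀)
    (fun u v => symm_form hj hw u v)
    (fun v h1 h2 => immersion_coords hj.smooth hj.immersion hw v h1 h2)
    0 (Qc j y₀ x₁ w₀) (fun v => by rw [inner_zero_left, hQB])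
  -- derivative of Pc
  have hPm : fderiv ℝ (Pc j y₀ x₁) w₀ m = Pc j y₀ x₁ w₀ := by
    have h1 : fderiv ℝ (Qc j y₀ x₁) w₀ m =
        (InnerProductSpace.toDual ℝ (E n)).symm (fderiv ℝ (Pc j y₀ x₁) w₀ m) := by
      have h2 : HasFDerivAt (Pc j y₀ x₁) (fderiv ℝ (Pc j y₀ x₁) w₀) w₀ :=
        ((Pc_contDiffAt hj.smooth hw).differentiableAt (by simp)).hasFDerivAt
      have h3 := ((InnerProductSpace.toDual ℝ
        (E n)).symm.toContinuousLinearEquiv.toContinuousLinearMap.hasFDerivAt).comp w₀ h2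
      have h4 : fderiv ℝ (Qc j y₀ x₁) w₀ = _ := h3.fderiv
      rw [h4]
      rfl
    rw [hm2] at h1
    exact ((InnerProductSpace.toDual ℝ (E n)).symm.injective h1).symm
  set B₀ : E n := extChartAt (𝓡 n) x₁ (j y₀).proj with hB₀
  set P₀ : E n →L[ℝ] ℝ := (triv x₁ (j y₀)).2 with hP₀
  have hBw : Bc j y₀ x₁ w₀ = B₀ := by unfold Bc; rw [e0]
  have hPw : Pc j y₀ x₁ w₀ = P₀ := by unfold Pc; rw [e0]
  -- the function in coordinates
  set A' : E n × (E n →L[ℝ] ℝ) → ℝ := fun p => A (invc x₁ p) with hA'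
  have hA'd : DifferentiableAt ℝ A' (B₀, P₀) := by
    have h1 := invc_contMDiffAt (n := n) hzs
    have h2 : ContMDiffAt (𝓘(ℝ, E n).prod 𝓘(ℝ, E n →L[ℝ] ℝ)) 𝓘(ℝ, ℝ) ∞ A' (B₀, P₀) :=
      hA.contMDiffAt.comp (B₀, P₀) h1
    rw [← modelWithCornersSelf_prod, chartedSpaceSelf_prod] at h2
    exact (contMDiffAt_iff_contDiffAt.1 h2).differentiableAt (by simp)
  have hA'F := hA'd.hasFDerivAt
  -- along the Lagrangian
  have hB := ((Bc_contDiffAt hj.smooth hw).differentiableAt (by simp)).hasFDerivAt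
  have hP := ((Pc_contDiffAt hj.smooth hw).differentiableAt (by simp)).hasFDerivAt
  have k1 : HasFDerivAt (fun w => A' (Bc j y₀ x₁ w, Pc j y₀ x₁ w))
      ((fderiv ℝ A' (B₀, P₀)).comp ((fderiv ℝ (Bc j y₀ x₁) w₀).prod
        (fderiv ℝ (Pc j y₀ x₁) w₀))) w₀ := by
    have h1 : HasFDerivAt A' (fderiv ℝ A' (B₀, P₀)) (Bc j y₀ x₁ w₀, Pc j y₀ x₁ w₀) := by
      rw [hBw, hPw]; exact hA'F
    exact h1.comp w₀ (hB.prodMk hP)
  have k2 : HasFDerivAt (fun w => A' (Bc j y₀ x₁ w, Pc j y₀ x₁ w)) (0 : E n →L[ℝ] ℝ) w₀ := by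
    have h1 : (fun w => A' (Bc j y₀ x₁ w, Pc j y₀ x₁ w)) =ᶠ[𝓝 w₀] fun _ => A (j y₀) := by
      filter_upwards [(isOpen_Dom hj.smooth y₀ x₁).mem_nhds hw] with w' hw'
      change A (invc x₁ (Bc j y₀ x₁ w', Pc j y₀ x₁ w')) = A (j y₀)
      have h2 : invc x₁ (Bc j y₀ x₁ w', Pc j y₀ x₁ w') = j ((extChartAt (𝓡 n) y₀).symm w') :=
        invc_coords hw'.2
      rw [h2]
      exact hconst _
    exact (hasFDerivAt_const (A (j y₀)) w₀).congr_of_eventuallyEq h1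
  have k3 := congrArg (fun T : E n →L[ℝ] ℝ => T m) (k1.unique k2)
  have k4 : fderiv ℝ A' (B₀, P₀) ((0 : E n), P₀) = 0 := by
    have h1 : fderiv ℝ A' (B₀, P₀) (fderiv ℝ (Bc j y₀ x₁) w₀ m, fderiv ℝ (Pc j y₀ x₁) w₀ m) = 0 :=
      k3
    rwa [hm1, hPm, hPw] at h1
  -- along the ray
  have k5 : HasDerivAt (fun s : ℝ => A' (B₀, s • P₀)) 0 1 := by
    have h1 : HasDerivAt (fun s : ℝ => (B₀, s • P₀)) ((0 : E n), P₀) 1 := by
      have := ((hasDerivAt_id (1 : ℝ)).smul_const P₀)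
      rw [one_smul] at this
      exact (hasDerivAt_const (1 : ℝ) B₀).prodMk this
    have h2 : HasFDerivAt A' (fderiv ℝ A' (B₀, P₀)) (B₀, (1 : ℝ) • P₀) := by
      rw [one_smul]; exact hA'F
    have h3 := h2.comp_hasDerivAt (1 : ℝ) h1
    rw [k4] at h3
    exact h3
  have k6 : (fun s : ℝ => A' (B₀, s • P₀)) = fun s : ℝ => A (scl s (j y₀)) := by
    funext s
    change A (invc x₁ (B₀, s • P₀)) = A (scl s (j y₀))
    congr 1
    have h1 := invc_coords (n := n) (x₁ := x₁) (z := scl s (j y₀)) hzs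
    rw [triv_scl hzs s] at h1
    exact h1
  rw [k6] at k5
  exact hd.unique k5

/-- The derivative of a function on `T*N`. -/
def dR (A : CT n N → ℝ) (z : CT n N) (ξ : TangentSpace (ICT n) z) : ℝ :=
  mfderiv (ICT n) 𝓘(ℝ, ℝ) A z ξ

/-- The derivative of a function on `L`. -/
def dL (f : L → ℝ) (y : L) (v : TangentSpace (𝓡 n) y) : ℝ := mfderiv (𝓡 n) 𝓘(ℝ, ℝ) f y v

/-- The primitive under a map with `Φ*λ = λ + dA`. -/
theorem primitive_change [CompactSpace L] [ConnectedSpace L] {j : L → CT n N}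
    (hj : ExactLagrangian j) {f : L → ℝ} (hf : ContMDiff (𝓡 n) 𝓘(ℝ, ℝ) ∞ f)
    (hfj : ∀ (y : L) (v : TangentSpace (𝓡 n) y),
      mfderiv (𝓡 n) 𝓘(ℝ, ℝ) f y v = liouville (j y) (mfderiv (𝓡 n) (ICT n) j y v))
    {Φ : CT n N → CT n N} (hΦs : ContMDiff (ICT n) (ICT n) ∞ Φ) {A : CT n N → ℝ}
    (hA : ContMDiff (ICT n) 𝓘(ℝ, ℝ) ∞ A)
    (hΦ : ∀ (z : CT n N) (ξ : TangentSpace (ICT n) z),
      liouville (Φ z) (mfderiv (ICT n) (ICT n) Φ z ξ) = liouville z ξ + dR A z ξ)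
    {ρ : L → L} (hρ : Continuous ρ) (hjρ : ∀ y, j (ρ y) = Φ (j y)) (y y' : L) :
    f (ρ y) - (f y + A (j y)) = f (ρ y') - (f y' + A (j y')) := by
  have hk : ContMDiff (𝓡 n) (ICT n) ∞ (fun y => Φ (j y)) := hΦs.comp hj.smooth
  have hρd : ∀ y, MDifferentiableAt (𝓡 n) (𝓡 n) ρ y := fun y =>
    mdiff_of_comp hj hρ.continuousAt hk.contMDiffAt hjρ
  have hfd : ∀ y, MDifferentiableAt (𝓡 n) 𝓘(ℝ, ℝ) f y := fun y =>
    hf.contMDiffAt.mdifferentiableAt (by simp)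
  have hjd : ∀ y, MDifferentiableAt (𝓡 n) (ICT n) j y := fun y =>
    hj.smooth.contMDiffAt.mdifferentiableAt (by simp)
  have hΦd : ∀ z, MDifferentiableAt (ICT n) (ICT n) Φ z := fun z =>
    hΦs.contMDiffAt.mdifferentiableAt (by simp)
  have hAd : ∀ z, MDifferentiableAt (ICT n) 𝓘(ℝ, ℝ) A z := fun z =>
    hA.contMDiffAt.mdifferentiableAt (by simp)
  have hAj : ∀ y, MDifferentiableAt (𝓡 n) 𝓘(ℝ, ℝ) (fun y => A (j y)) y := fun y =>
    (hAd _).comp y (hjd y)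
  have hder : ∀ (y : L) (v : TangentSpace (𝓡 n) y),
      dL (fun y => f (ρ y)) y v = dL f y v + dL (fun y => A (j y)) y v := by
    intro y v
    have e1 : mfderiv (𝓡 n) 𝓘(ℝ, ℝ) (fun y => f (ρ y)) y =
        (mfderiv (𝓡 n) 𝓘(ℝ, ℝ) f (ρ y)).comp (mfderiv (𝓡 n) (𝓡 n) ρ y) :=
      mfderiv_comp y (hfd _) (hρd y)
    have e2 : mfderiv (𝓡 n) (ICT n) (fun y => j (ρ y)) y =
        (mfderiv (𝓡 n) (ICT n) j (ρ y)).comp (mfderiv (𝓡 n) (𝓡 n) ρ y) :=
      mfderiv_comp y (hjd _) (hρd y)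
    have e3 : mfderiv (𝓡 n) (ICT n) (fun y => Φ (j y)) y =
        (mfderiv (ICT n) (ICT n) Φ (j y)).comp (mfderiv (𝓡 n) (ICT n) j y) :=
      mfderiv_comp y (hΦd _) (hjd y)
    have e3' : mfderiv (𝓡 n) 𝓘(ℝ, ℝ) (fun y => A (j y)) y =
        (mfderiv (ICT n) 𝓘(ℝ, ℝ) A (j y)).comp (mfderiv (𝓡 n) (ICT n) j y) :=
      mfderiv_comp y (hAd _) (hjd y)
    have e4 : (fun y => j (ρ y)) = fun y => Φ (j y) := funext hjρ
    have e5 : mfderiv (𝓡 n) 𝓘(ℝ, ℝ) f (ρ y) (mfderiv (𝓡 n) (𝓡 n) ρ y v) =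
        liouville (j (ρ y)) (mfderiv (𝓡 n) (ICT n) (fun y => j (ρ y)) y v) := by
      rw [hfj, e2]; rfl
    have e6 : ∀ a b : L → CT n N, a = b → liouville (a y) (mfderiv (𝓡 n) (ICT n) a y v) =
        liouville (b y) (mfderiv (𝓡 n) (ICT n) b y v) := by
      rintro a b rfl; rfl
    have e7 := e6 _ _ e4
    unfold dL
    rw [e1, e3']
    have e8 : (mfderiv (𝓡 n) 𝓘(ℝ, ℝ) f (ρ y) (mfderiv (𝓡 n) (𝓡 n) ρ y v) : ℝ) =
        liouville (j y) (mfderiv (𝓡 n) (ICT n) j y v) +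
          dR A (j y) (mfderiv (𝓡 n) (ICT n) j y v) := by
      refine (e5.trans e7).trans ?_
      rw [e3]
      exact hΦ (j y) (mfderiv (𝓡 n) (ICT n) j y v)
    have e9 : (mfderiv (𝓡 n) 𝓘(ℝ, ℝ) f y v : ℝ) =
        liouville (j y) (mfderiv (𝓡 n) (ICT n) j y v) := hfj y v
    refine e8.trans ?_
    rw [← e9]
    rfl
  have h1 : ∀ y, MDifferentiableAt (𝓡 n) 𝓘(ℝ, ℝ) (fun y => f (ρ y)) y := fun y =>
    (hfd _).comp y (hρd y)
  have h2 : ∀ y, MDifferentiableAt (𝓡 n) 𝓘(ℝ, ℝ) (fun y => f y + A (j y)) y := fun y =>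
    (hfd y).add (hAj y)
  refine const_of_mfderiv_zero (n := n) (L := L) (h := fun y => f (ρ y) - (f y + A (j y))) ?_ ?_
    y y'
  · intro y
    exact (h1 y).sub (h2 y)
  · intro y v
    let T : TangentSpace (𝓡 n) y →L[ℝ] ℝ := mfderiv (𝓡 n) 𝓘(ℝ, ℝ) (fun y => f (ρ y)) y
    let C : TangentSpace (𝓡 n) y →L[ℝ] ℝ := mfderiv (𝓡 n) 𝓘(ℝ, ℝ) f y
    let D : TangentSpace (𝓡 n) y →L[ℝ] ℝ := mfderiv (𝓡 n) 𝓘(ℝ, ℝ) (fun y => A (j y)) y
    have h3 : HasMFDerivAt (𝓡 n) 𝓘(ℝ, ℝ) (fun y => f y + A (j y)) y (C + D) :=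
      HasMFDerivAt.add (hfd y).hasMFDerivAt (hAj y).hasMFDerivAt
    have h4 : HasMFDerivAt (𝓡 n) 𝓘(ℝ, ℝ) (fun y => f (ρ y) - (f y + A (j y))) y (T - (C + D)) :=
      HasMFDerivAt.sub (h1 y).hasMFDerivAt h3
    rw [h4.mfderiv]
    have h5 : T v = C v + D v := hder y v
    show T v - (C v + D v) = 0
    rw [h5, sub_self]

/-- A radially increasing function is positive off the zero section. -/
theorem pos_of_radial {A : CT n N → ℝ} (hA : ContMDiff (ICT n) 𝓘(ℝ, ℝ) ∞ A)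
    (h0 : ∀ z : CT n N, z.2 = 0 → A z = 0)
    (hrad : ∀ z : CT n N, z.2 ≠ 0 → ∃ d > 0, HasDerivAt (fun s : ℝ => A (scl s z)) d 1)
    {z : CT n N} (hz : z.2 ≠ 0) : 0 < A z := by
  set g : ℝ → ℝ := fun s => A (scl s z) with hg
  have hder : ∀ s : ℝ, 0 < s → ∃ d > 0, HasDerivAt g d s := by
    intro s hs
    have h1 : (scl s z).2 ≠ 0 := by
      intro h
      have h2 : s • z.2 = 0 := h
      rcases smul_eq_zero.1 h2 with h3 | h3
      · exact hs.ne' h3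
      · exact hz h3
    obtain ⟨d, hd, hd2⟩ := hrad _ h1
    refine ⟨d * s⁻¹, mul_pos hd (inv_pos.2 hs), ?_⟩
    have h3 : g = (fun r : ℝ => A (scl r (scl s z))) ∘ fun r => r * s⁻¹ := by
      funext r
      have h4 : scl (r * s⁻¹) (scl s z) = scl r z := by
        change (⟨z.proj, (r * s⁻¹) • (s • z.2)⟩ : CT n N) = ⟨z.proj, r • z.2⟩
        rw [smul_smul, mul_assoc, inv_mul_cancel₀ hs.ne', mul_one]
      change A (scl r z) = A (scl (r * s⁻¹) (scl s z))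
      rw [h4]
    have h5 : HasDerivAt (fun r : ℝ => r * s⁻¹) s⁻¹ s := by
      simpa using (hasDerivAt_id s).mul_const s⁻¹
    have h6 : HasDerivAt (fun r : ℝ => A (scl r (scl s z))) d ((fun r : ℝ => r * s⁻¹) s) := by
      change HasDerivAt _ d (s * s⁻¹)
      rw [mul_inv_cancel₀ hs.ne']
      exact hd2
    rw [h3]
    exact h6.comp s h5
  -- continuity
  have hcont : Continuous g := by
    have hzs : z.proj ∈ (chartAt (E n) z.proj).source := mem_chart_source _ _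
    have h1 : ∀ s : ℝ, scl s z = (triv z.proj).toOpenPartialHomeomorph.symm
        (z.proj, s • (triv z.proj z).2) := by
      intro s
      have h2 := invc_coords (n := n) (x₁ := z.proj) (z := scl s z) hzs
      rw [triv_scl hzs s] at h2
      unfold invc at h2
      have h3 : (extChartAt (𝓡 n) z.proj).symm (extChartAt (𝓡 n) z.proj z.proj) = z.proj :=
        extChartAt_to_inv (I := 𝓡 n) z.proj
      have h4 : (scl s z).proj = z.proj := rfl
      rw [h4] at h2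
      simp only [h3] at h2
      exact h2.symm
    have h5 : Continuous (fun s : ℝ => scl s z) := by
      rw [continuous_iff_continuousAt]
      intro s
      have h6 : (fun s : ℝ => scl s z) = fun s : ℝ =>
          (triv z.proj).toOpenPartialHomeomorph.symm (z.proj, s • (triv z.proj z).2) :=
        funext h1
      rw [h6]
      have h7 : ContinuousAt (triv (n := n) z.proj).toOpenPartialHomeomorph.symm
          (z.proj, s • (triv z.proj z).2) := by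
        refine (triv (n := n) z.proj).toOpenPartialHomeomorph.continuousAt_symm ?_
        exact ((triv (n := n) z.proj).mem_target).2
          ((triv (n := n) z.proj).mem_source.1 (mem_triv_source hzs))
      have h8 : Continuous (fun s : ℝ => (z.proj, s • (triv z.proj z).2)) := by fun_prop
      exact ContinuousAt.comp (f := fun s : ℝ => (z.proj, s • (triv z.proj z).2)) h7
        h8.continuousAt
    exact hA.continuous.comp h5
  have hmono : StrictMonoOn g (Set.Icc 0 1) := by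
    refine strictMonoOn_of_deriv_pos (convex_Icc 0 1) hcont.continuousOn ?_
    intro s hs
    rw [interior_Icc] at hs
    obtain ⟨d, hd, hd2⟩ := hder s hs.1
    rw [hd2.deriv]
    exact hd
  have h1 := hmono (left_mem_Icc.2 zero_le_one) (right_mem_Icc.2 zero_le_one) zero_lt_one
  have h2 : g 0 = 0 := h0 _ (by change (0 : ℝ) • z.2 = 0; rw [zero_smul])
  have h3 : g 1 = A z := by
    change A (scl 1 z) = A z
    have : scl 1 z = z := by
      change (⟨z.proj, (1 : ℝ) • z.2⟩ : CT n N) = z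
      rw [one_smul]
    rw [this]
  rw [h2, h3] at h1
  exact h1

end Pool.Agent.H57.MS
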